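import Pool.Agent.H336.Kak.Plane

/-!
# The arithmetic Kakeya inequality for Gumm-closed sets
-/

set_option autoImplicit false

namespace Pool.Agent.H336.Kak

open Finset Pool.Agent.H336.Gumm

/-- the projection `π_r(x, y) = x + r y`, and `π_∞(x, y) = y` (`none` stands for `∞`) -/
def pr : Option ℚ → ℤ × ℤ → ℚ
  | none, a => (a.2 : ℚ)
  | some r, a => (a.1 : ℚ) + r * (a.2 : ℚ)

/-- `π_r(A)` -/
def proj (r : Option ℚ) (A : Finset (ℤ × ℤ)) : Finset ℚ := A.image (pr r)

/-- the largest size of a projection of `A` with slope `∞` or in `S` -/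
def big (S : Finset ℚ) (A : Finset (ℤ × ℤ)) : ℕ := (insertNone S).sup fun r => #(proj r A)

/-- There are some Gumm operations, on each of the projections with slope `∞` or in `S`, so that `A`
is closed under their componentwise application. -/
def GummClosed (S : Finset ℚ) (A : Finset (ℤ × ℤ)) : Prop :=
  ∃ (n : ℕ) (q : Option ℚ → ℕ → ℚ → ℚ → ℚ → ℚ) (p : Option ℚ → ℚ → ℚ → ℚ → ℚ),
    (∀ r ∈ insertNone S, IsGumm n (q r) (p r)) ∧
    ∀ a ∈ A, ∀ b ∈ A, ∀ c ∈ A,
      (∀ k ≤ n, ∃ d ∈ A, ∀ r ∈ insertNone S, pr r d = q r k (pr r a) (pr r b) (pr r c)) ∧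
      ∃ d ∈ A, ∀ r ∈ insertNone S, pr r d = p r (pr r a) (pr r b) (pr r c)

/-- the projections as homomorphisms -/
def prHom (r : Option ℚ) : ℤ × ℤ →+ ℚ where
  toFun := pr r
  map_zero' := by cases r <;> simp [pr]
  map_add' a b := by
    cases r with
    | none => simp [pr]
    | some r => simp only [pr, Prod.fst_add, Prod.snd_add]; push_cast; ring

theorem pr_sep {r s : Option ℚ} (hrs : r ≠ s) (v : ℤ × ℤ) (h1 : prHom r v = 0)
    (h2 : prHom s v = 0) : v = 0 := by
  have key : ∀ (r : Option ℚ) (t : ℚ), r ≠ some t → prHom r v = 0 → prHom (some t) v = 0 →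
      v = 0 := by
    intro r t hrt h1 h2
    have e2 : (v.1 : ℚ) + t * (v.2 : ℚ) = 0 := h2
    have e1 : (v.2 : ℚ) = 0 := by
      rcases r with _ | r
      · exact h1
      · have e1 : (v.1 : ℚ) + r * (v.2 : ℚ) = 0 := h1
        have hne : r - t ≠ 0 := fun h0 => hrt (congrArg some (sub_eq_zero.1 h0))
        have e3 : (r - t) * (v.2 : ℚ) = 0 := by linear_combination e1 - e2
        exact (mul_eq_zero.1 e3).resolve_left hne
    rw [e1, mul_zero, add_zero] at e2
    exact Prod.ext (by exact_mod_cast e2) (by exact_mod_cast e1)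
  rcases s with _ | t
  · rcases r with _ | r
    · exact absurd rfl hrs
    · exact key none r (by simp) h2 h1
  · exact key r t hrs h1 h2

theorem bound_one (S : Finset ℚ) (hS : 1 ≤ #S) (A : Finset (ℤ × ℤ)) (hA : GummClosed S A) :
    #A ^ #S ≤ ∏ r ∈ insertNone S, #(proj r A) := by
  classical
  rcases A.eq_empty_or_nonempty with rfl | hne
  · rw [card_empty, zero_pow (by omega)]
    exact Nat.zero_le _
  obtain ⟨n, q, p, hG, hcl⟩ := hA
  let ι : Type := {r // r ∈ insertNone S}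
  let e : {a // a ∈ A} → ℤ × ℤ := Subtype.val
  let L : ι → ℤ × ℤ →+ ℚ := fun i => prHom i.1
  have he : Function.Injective e := Subtype.val_injective
  have hL : ∀ i j : ι, i ≠ j → ∀ v, L i v = 0 → L j v = 0 → v = 0 := fun i j hij v h1 h2 =>
    pr_sep (fun h0 => hij (Subtype.ext h0)) v h1 h2
  have h0 : (none : Option ℚ) ∈ insertNone S := none_mem_insertNone
  obtain ⟨s, hs⟩ := card_pos.1 hS
  have h1 : (some s : Option ℚ) ∈ insertNone S := some_mem_insertNone.2 hs
  have hinj : ∀ x y : {a // a ∈ A}, (∀ r ∈ insertNone S, pr r x.1 = pr r y.1) → x = y := by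
    intro x y hxy
    have hne : (⟨none, h0⟩ : ι) ≠ ⟨some s, h1⟩ := fun h => by simpa using congrArg Subtype.val h
    exact dis he hL _ _ hne x y (kr_iff.2 (hxy _ h0)) (kr_iff.2 (hxy _ h1))
  have hq : ∀ (k : ℕ) (a b c : {a // a ∈ A}), ∃ d : {a // a ∈ A},
      k ≤ n → ∀ r ∈ insertNone S, pr r d.1 = q r k (pr r a.1) (pr r b.1) (pr r c.1) := by
    intro k a b c
    by_cases hk : k ≤ n
    · obtain ⟨d, hd, hd'⟩ := (hcl a.1 a.2 b.1 b.2 c.1 c.2).1 k hk
      exact ⟨⟨d, hd⟩, fun _ => hd'⟩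
    · exact ⟨a, fun h => absurd h hk⟩
  have hp : ∀ a b c : {a // a ∈ A}, ∃ d : {a // a ∈ A},
      ∀ r ∈ insertNone S, pr r d.1 = p r (pr r a.1) (pr r b.1) (pr r c.1) := by
    intro a b c
    obtain ⟨d, hd, hd'⟩ := (hcl a.1 a.2 b.1 b.2 c.1 c.2).2
    exact ⟨⟨d, hd⟩, hd'⟩
  choose q' hq' using hq
  choose p' hp' using hp
  have hgumm : IsGumm n q' p' := by
    refine ⟨?_, ?_, ?_, ?_, ?_, ?_⟩
    · intro x y z
      refine hinj _ _ fun r hr => ?_
      rw [hq' 0 x y z (Nat.zero_le _) r hr, (hG r hr).first]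
    · intro k hk x y
      refine hinj _ _ fun r hr => ?_
      rw [hq' k x y x hk r hr, (hG r hr).mid k hk]
    · intro k hk he x y
      refine hinj _ _ fun r hr => ?_
      rw [hq' k x y y hk.le r hr, hq' (k + 1) x y y hk r hr, (hG r hr).even k hk he]
    · intro k hk he x y
      refine hinj _ _ fun r hr => ?_
      rw [hq' k x x y hk.le r hr, hq' (k + 1) x x y hk r hr, (hG r hr).odd k hk he]
    · intro x y
      refine hinj _ _ fun r hr => ?_
      rw [hq' n x y y le_rfl r hr, hp' x y y r hr, (hG r hr).last]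
    · intro x y
      refine hinj _ _ fun r hr => ?_
      rw [hp' x x y r hr, (hG r hr).diff]
  have hcg : ∀ i, Cg n q' p' (kr e L i) := by
    intro i
    refine ⟨fun k hk => ?_, ?_⟩
    · intro a a' b b' c c' e1 e2 e3
      have e1' : pr i.1 a.1 = pr i.1 a'.1 := e1
      have e2' : pr i.1 b.1 = pr i.1 b'.1 := e2
      have e3' : pr i.1 c.1 = pr i.1 c'.1 := e3
      show pr i.1 (q' k a b c).1 = pr i.1 (q' k a' b' c').1
      rw [hq' k a b c hk i.1 i.2, hq' k a' b' c' hk i.1 i.2, e1', e2', e3']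
    · intro a a' b b' c c' e1 e2 e3
      have e1' : pr i.1 a.1 = pr i.1 a'.1 := e1
      have e2' : pr i.1 b.1 = pr i.1 b'.1 := e2
      have e3' : pr i.1 c.1 = pr i.1 c'.1 := e3
      show pr i.1 (p' a b c).1 = pr i.1 (p' a' b' c').1
      rw [hp' a b c i.1 i.2, hp' a' b' c' i.1 i.2, e1', e2', e3']
  have hA' : Nonempty {a // a ∈ A} := hne.to_subtype
  have hι : Nonempty ι := ⟨⟨none, h0⟩⟩
  have h := plane_bound he hL hgumm hcg
  have hcard : Fintype.card ι = #S + 1 := by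
    rw [Fintype.card_coe, card_insertNone]
  rw [hcard, Nat.add_sub_cancel, Fintype.card_coe] at h
  refine h.trans (le_of_eq ?_)
  rw [← prod_coe_sort (insertNone S) fun r => #(proj r A)]
  refine prod_congr rfl fun i _ => ?_
  rw [proj]
  congr 1
  ext z
  simp only [mem_image, mem_univ, true_and, Subtype.exists]
  constructor
  · rintro ⟨a, ha, rfl⟩; exact ⟨a, ha, rfl⟩
  · rintro ⟨a, ha, rfl⟩; exact ⟨a, ha, rfl⟩

theorem proj_le_big {S : Finset ℚ} {A : Finset (ℤ × ℤ)} {r : Option ℚ} (hr : r ∈ insertNone S) :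
    #(proj r A) ≤ big S A :=
  Finset.le_sup (f := fun r => #(proj r A)) hr

theorem bound_big (S : Finset ℚ) (hS : 1 ≤ #S) (A : Finset (ℤ × ℤ)) (hA : GummClosed S A) :
    #A ^ #S ≤ big S A ^ (#S + 1) := by
  refine (bound_one S hS A hA).trans ?_
  rw [← card_insertNone]
  exact prod_le_pow_card _ _ _ fun r hr => proj_le_big hr

theorem big_mono (S : Finset ℚ) {A B : Finset (ℤ × ℤ)} (h : A ⊆ B) : big S A ≤ big S B :=
  Finset.sup_mono_fun fun _ _ => card_le_card (image_subset_image h)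

theorem union_bound (ε : ℝ) (hε : 0 < ε) (S : Finset ℚ) (hSε : 2 / ε ≤ #S)
    (A : Finset (ℤ × ℤ)) (L : ℕ) (B : Fin L → Finset (ℤ × ℤ)) (hBA : ∀ i, B i ⊆ A)
    (hcov : ∀ a ∈ A, ∃ i, a ∈ B i) (hB : ∀ i, GummClosed S (B i))
    (hL : (L : ℝ) ≤ (#(proj (some (-1)) A) : ℝ) ^ (ε / (2 * (1 + ε)))) :
    (#(proj (some (-1)) A) : ℝ) ≤ (big S A : ℝ) ^ (1 + ε) := by
  classical
  set K : ℕ := #S with hK
  have hKpos : (0 : ℝ) < K := lt_of_lt_of_le (by positivity) hSε
  have hK1 : 1 ≤ K := Nat.one_le_iff_ne_zero.2 fun h => by simp [h] at hKpos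
  have h1K : 1 / (K : ℝ) ≤ ε / 2 := by
    rw [div_le_iff₀ hε] at hSε
    rw [div_le_div_iff₀ hKpos (by norm_num)]
    linarith
  set δ : ℝ := ε / (2 * (1 + ε)) with hδ
  set M : ℝ := (big S A : ℝ) with hM
  set N : ℝ := (#(proj (some (-1)) A) : ℝ) with hN
  rcases A.eq_empty_or_nonempty with rfl | hne
  · have : N = 0 := by rw [hN]; simp [proj]
    rw [this]
    positivity
  have hM1 : (1 : ℝ) ≤ M := by
    have : 1 ≤ #(proj none A) := card_pos.2 (hne.image _)
    rw [hM]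
    exact_mod_cast this.trans (proj_le_big none_mem_insertNone)
  have hN1 : (1 : ℝ) ≤ N := by
    have : 1 ≤ #(proj (some (-1)) A) := card_pos.2 (hne.image _)
    rw [hN]
    exact Nat.one_le_cast.2 this
  have h2 : ∀ i, (#(B i) : ℝ) ≤ M ^ (1 + 1 / (K : ℝ)) := by
    intro i
    have h3 := bound_big S hK1 (B i) (hB i)
    have h4 : #(B i) ^ K ≤ big S A ^ (K + 1) :=
      h3.trans (Nat.pow_le_pow_left (big_mono S (hBA i)) _)
    refine le_of_pow_le_pow_left₀ (n := K) (by omega) (by positivity) ?_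
    have h5 : (M ^ (1 + 1 / (K : ℝ))) ^ K = M ^ (K + 1) := by
      rw [← Real.rpow_natCast, ← Real.rpow_mul (by positivity), ← Real.rpow_natCast]
      congr 1
      push_cast
      field_simp
    rw [h5, hM, ← Nat.cast_pow, ← Nat.cast_pow]
    exact Nat.cast_le.2 h4
  have h6 : (#A : ℝ) ≤ L * M ^ (1 + 1 / (K : ℝ)) := by
    have h7 : #A ≤ ∑ i : Fin L, #(B i) := by
      have : A ⊆ univ.biUnion B := fun a ha => by
        obtain ⟨i, hi⟩ := hcov a ha
        exact mem_biUnion.2 ⟨i, mem_univ _, hi⟩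
      exact (card_le_card this).trans card_biUnion_le
    calc (#A : ℝ) ≤ ((∑ i : Fin L, #(B i) : ℕ) : ℝ) := by exact_mod_cast h7
      _ = ∑ i : Fin L, (#(B i) : ℝ) := by push_cast; rfl
      _ ≤ ∑ _i : Fin L, M ^ (1 + 1 / (K : ℝ)) := sum_le_sum fun i _ => h2 i
      _ = _ := by rw [sum_const, card_univ, Fintype.card_fin, nsmul_eq_mul]
  have h8 : N ≤ #A := by
    have : #(proj (some (-1)) A) ≤ #A := card_image_le
    rw [hN]
    exact Nat.cast_le.2 this
  have h9 : N ≤ N ^ δ * M ^ (1 + ε / 2) := by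
    refine h8.trans (h6.trans (mul_le_mul hL ?_ (by positivity) (by positivity)))
    exact Real.rpow_le_rpow_of_exponent_le hM1 (by linarith)
  have hδ1 : δ < 1 := by
    rw [hδ, div_lt_one (by positivity)]
    linarith
  have hN0 : 0 < N := by linarith
  have h10 : N ^ (1 - δ) ≤ M ^ (1 + ε / 2) := by
    have h11 : N ^ δ * N ^ (1 - δ) = N := by
      rw [← Real.rpow_add hN0]
      simp
    have h12 : N ^ δ * N ^ (1 - δ) ≤ N ^ δ * M ^ (1 + ε / 2) := by rw [h11]; exact h9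
    exact le_of_mul_le_mul_left h12 (Real.rpow_pos_of_pos hN0 _)
  have h13 : 1 - δ = (1 + ε / 2) / (1 + ε) := by
    rw [hδ]
    field_simp
    ring
  have h14 : (N ^ (1 - δ)) ^ (1 / (1 - δ)) ≤ (M ^ (1 + ε / 2)) ^ (1 / (1 - δ)) :=
    Real.rpow_le_rpow (by positivity) h10 (by
      have : 0 < 1 - δ := by linarith
      positivity)
  rw [← Real.rpow_mul hN0.le, ← Real.rpow_mul (by linarith), mul_one_div_cancel (by linarith),
    Real.rpow_one] at h14
  refine h14.trans (le_of_eq ?_)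
  congr 1
  rw [h13]
  field_simp

end Pool.Agent.H336.Kak
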