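import Pool.Agent.H336.Gumm.Alg
import Pool.Agent.R181.LW

/-!
# Gumm-closed finite sets in a plane: the kernels of the projections

`A` is a finite set with Gumm operations, `e : A → V` is an injection into an abelian group, and
`L i : V →+ ℚ` are homomorphisms any two of which separate the points, such that the kernel `θ i` of
`L i ∘ e` is a congruence for every `i`. We prove that the kernels are independent.
-/

set_option autoImplicit false
set_option linter.unusedSectionVars false

universe u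

namespace Pool.Agent.H336.Gumm

open Finset Classical
open Pool.Agent.R181.Maj (Compat compat_inf compat_sup sup_map)

section lattice

variable {A : Type} {n : ℕ} {q : ℕ → A → A → A → A} {p : A → A → A → A} {ι : Type}
  [Fintype ι]

theorem Cg.bot : Cg n q p (⊥ : Setoid A) := by
  refine ⟨fun i _ => ?_, ?_⟩
  · intro a a' b b' c c' h1 h2 h3
    have h1' : a = a' := h1
    have h2' : b = b' := h2
    have h3' : c = c' := h3
    subst h1' h2' h3'
    exact (⊥ : Setoid A).refl _
  · intro a a' b b' c c' h1 h2 h3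
    have h1' : a = a' := h1
    have h2' : b = b' := h2
    have h3' : c = c' := h3
    subst h1' h2' h3'
    exact (⊥ : Setoid A).refl _

theorem Cg.fsup {κ : Type} {θ : κ → Setoid A} (hθ : ∀ i, Cg n q p (θ i)) (T : Finset κ) :
    Cg n q p (T.sup θ) :=
  Finset.sup_induction Cg.bot (fun _ h1 _ h2 => h1.sup h2) fun i _ => hθ i

/-- The join of all the congruences but one. -/
noncomputable def psi (θ : ι → Setoid A) (i : ι) : Setoid A := (univ.erase i).sup θ

/-- The intersection of a congruence with the join of the others. -/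
noncomputable def kap (θ : ι → Setoid A) (i : ι) : Setoid A := θ i ⊓ psi θ i

theorem le_psi (θ : ι → Setoid A) {i s : ι} (h : s ≠ i) : θ s ≤ psi θ i :=
  Finset.le_sup (f := θ) (mem_erase.2 ⟨h, mem_univ _⟩)

theorem kap_le_psi (θ : ι → Setoid A) (i s : ι) : kap θ s ≤ psi θ i := by
  by_cases h : s = i
  · rw [h]; exact inf_le_right
  · exact inf_le_left.trans (le_psi θ h)

variable {θ : ι → Setoid A}

theorem cg_psi (hθ : ∀ i, Cg n q p (θ i)) (i : ι) : Cg n q p (psi θ i) := Cg.fsup hθ _

theorem cg_kap (hθ : ∀ i, Cg n q p (θ i)) (i : ι) : Cg n q p (kap θ i) := (hθ i).inf (cg_psi hθ i)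

theorem refine_sup (h : IsGumm n q p) (hθ : ∀ i, Cg n q p (θ i)) (T K : Finset ι) :
    T.sup θ ⊓ K.inf (psi θ) ≤ (T \ K).sup θ ⊔ K.sup (kap θ) := by
  induction K using Finset.induction_on with
  | empty =>
    rw [sdiff_empty]
    exact inf_le_left.trans le_sup_left
  | insert k K hk ih =>
    rw [inf_insert, sup_insert]
    set W : Setoid A := (T \ insert k K).sup θ ⊔ K.sup (kap θ) with hW
    have h1 : T.sup θ ⊓ (psi θ k ⊓ K.inf (psi θ)) ≤ psi θ k ⊓ (θ k ⊔ W) := by
      refine le_inf (inf_le_right.trans inf_le_left) ?_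
      refine (le_inf inf_le_left (inf_le_right.trans inf_le_right)).trans (ih.trans ?_)
      refine sup_le (Finset.sup_le fun s hs => ?_) (le_sup_right.trans le_sup_right)
      by_cases hsk : s = k
      · rw [hsk]; exact le_sup_left
      · refine (Finset.le_sup (f := θ) ?_).trans (le_sup_left.trans le_sup_right)
        rw [mem_sdiff] at hs ⊢
        refine ⟨hs.1, fun h0 => ?_⟩
        rcases mem_insert.1 h0 with h0 | h0
        · exact hsk h0
        · exact hs.2 h0
    have hWk : W ≤ psi θ k := by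
      refine sup_le (Finset.sup_le fun s hs => ?_) (Finset.sup_le fun s _ => kap_le_psi θ k s)
      refine le_psi θ fun h0 => ?_
      rw [mem_sdiff] at hs
      exact hs.2 (h0 ▸ mem_insert_self _ _)
    have h2 := modular h (α := psi θ k) (β := θ k) (γ := W) (cg_psi hθ k) (hθ k)
      ((Cg.fsup hθ _).sup (Cg.fsup (cg_kap hθ) _)) hWk
    refine h1.trans (h2.trans (sup_le ?_ ?_))
    · rw [inf_comm]
      exact (le_sup_left : kap θ k ≤ kap θ k ⊔ K.sup (kap θ)).trans le_sup_right
    · exact sup_le le_sup_left (le_sup_right.trans le_sup_right)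

theorem inf_psi_le (h : IsGumm n q p) (hθ : ∀ i, Cg n q p (θ i)) (i : ι) :
    univ.inf (psi θ) ≤ (univ.erase i).sup (kap θ) := by
  have h1 := refine_sup h hθ (univ.erase i) (univ.erase i)
  rw [sdiff_self, Finset.bot_eq_empty, sup_empty, bot_sup_eq] at h1
  refine le_trans (le_inf ?_ ?_) h1
  · exact Finset.inf_le (f := psi θ) (mem_univ i)
  · exact Finset.inf_mono (erase_subset _ _)

theorem kap_le (h : IsGumm n q p) (hθ : ∀ i, Cg n q p (θ i)) (i : ι) :
    kap θ i ≤ (univ.erase i).sup (kap θ) :=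
  le_trans (Finset.le_inf fun s _ => kap_le_psi θ s i) (inf_psi_le h hθ i)

theorem kap_abel (h : IsGumm n q p) (hθ : ∀ i, Cg n q p (θ i))
    (hdis : ∀ i j, i ≠ j → ∀ x y, θ i x y → θ j x y → x = y) {i : ι} {x y : A}
    (hxy : kap θ i x y) : x = p x y y := by
  have h0 : (⊥ : Setoid A) x (p x y y) := by
    refine chain h fun k hk => ?_
    have hk' : ∀ c, θ i (q k x c y) x := by
      intro c
      have := (hθ i).1 k hk _ _ _ _ _ _ ((θ i).refl x) ((θ i).refl c) ((θ i).symm hxy.1)
      rwa [h.mid k hk] at this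
    have h1 : psi θ i ≤ Setoid.ker fun g => q k x g y := by
      refine Finset.sup_le fun s hs => ?_
      intro a b hab
      refine hdis i s (mem_erase.1 hs).1.symm _ _ ((θ i).trans (hk' a) ((θ i).symm (hk' b))) ?_
      exact (hθ s).1 k hk _ _ _ _ _ _ ((θ s).refl _) hab ((θ s).refl _)
    exact h1 hxy.2
  exact h0

end lattice

section plane

variable {A : Type} [Fintype A] {n : ℕ} {q : ℕ → A → A → A → A} {p : A → A → A → A} {ι : Type}
  [Fintype ι] {V : Type} [AddCommGroup V] {e : A → V} {L : ι → V →+ ℚ}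

/-- The kernel of the `i`-th projection. -/
def kr (e : A → V) (L : ι → V →+ ℚ) (i : ι) : Setoid A := Setoid.ker fun x => L i (e x)

theorem kr_iff {i : ι} {x y : A} : kr e L i x y ↔ L i (e x) = L i (e y) := Iff.rfl

theorem dis (he : Function.Injective e) (hL : ∀ i j, i ≠ j → ∀ v, L i v = 0 → L j v = 0 → v = 0) :
    ∀ i j, i ≠ j → ∀ x y, kr e L i x y → kr e L j x y → x = y := by
  intro i j hij x y h1 h2
  refine he (sub_eq_zero.1 (hL i j hij _ ?_ ?_))
  · rw [map_sub, kr_iff.1 h1, sub_self]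
  · rw [map_sub, kr_iff.1 h2, sub_self]

theorem shift (he : Function.Injective e)
    (hL : ∀ i j, i ≠ j → ∀ v, L i v = 0 → L j v = 0 → v = 0) (h : IsGumm n q p)
    (hθ : ∀ i, Cg n q p (kr e L i)) {i j : ι} (hij : i ≠ j) {x y z : A}
    (h1 : kap (kr e L) i x y) (h2 : kap (kr e L) j y z) :
    ∃ w, kap (kr e L) j x w ∧ e w - e x = e z - e y := by
  have hd := dis he hL
  have h3 : x = p x y y := kap_abel h hθ hd h1
  have h4 : kap (kr e L) j x (p x y z) := by
    have := (cg_kap hθ j).2 _ _ _ _ _ _ ((kap (kr e L) j).refl x) ((kap (kr e L) j).refl y) h2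
    rwa [← h3] at this
  have h5 : kap (kr e L) i (p x y z) z := by
    have := (cg_kap hθ i).2 _ _ _ _ _ _ h1 ((kap (kr e L) i).refl y) ((kap (kr e L) i).refl z)
    rwa [h.diff] at this
  refine ⟨p x y z, h4, ?_⟩
  refine sub_eq_zero.1 (hL i j hij _ ?_ ?_)
  · have e1 := kr_iff.1 h5.1
    have e2 := kr_iff.1 h1.1
    simp only [map_sub]
    rw [e1, e2]
    ring
  · have e1 := kr_iff.1 h4.1
    have e2 := kr_iff.1 h2.1
    simp only [map_sub]
    rw [← e1, e2]
    ring

/-- `y - x` is a sum of steps from `x`, in the directions different from `i`. -/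
def Rep (e : A → V) (L : ι → V →+ ℚ) (i : ι) (x y : A) : Prop :=
  ∃ d : ι → A, (∀ s, kap (kr e L) s x (d s)) ∧ d i = x ∧ e y - e x = ∑ s, (e (d s) - e x)

theorem rep_refl (i : ι) (x : A) : Rep e L i x x :=
  ⟨fun _ => x, fun s => (kap (kr e L) s).refl x, rfl, by simp⟩

theorem rep_step (he : Function.Injective e)
    (hL : ∀ i j, i ≠ j → ∀ v, L i v = 0 → L j v = 0 → v = 0) (h : IsGumm n q p)
    (hθ : ∀ i, Cg n q p (kr e L i)) {i t : ι} (ht : t ≠ i) {x z y : A}
    (h1 : kap (kr e L) t x z) (h2 : Rep e L i z y) : Rep e L i x y := by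
  obtain ⟨d, hd1, hd2, hd3⟩ := h2
  have h3 : ∀ s, ∃ w, kap (kr e L) s x w ∧
      e w - e x = (e (d s) - e z) + (if s = t then e z - e x else 0) := by
    intro s
    by_cases hs : s = t
    · refine ⟨d s, ?_, ?_⟩
      · rw [hs] at *
        exact (kap (kr e L) t).trans h1 (hs ▸ hd1 t)
      · rw [if_pos hs]; abel
    · obtain ⟨w, hw1, hw2⟩ := shift he hL h hθ (Ne.symm hs) h1 (hd1 s)
      exact ⟨w, hw1, by rw [hw2, if_neg hs, add_zero]⟩
  choose w hw1 hw2 using h3
  refine ⟨w, hw1, ?_, ?_⟩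
  · refine he (sub_eq_zero.1 ?_)
    rw [hw2 i, hd2, if_neg ht.symm]
    simp
  · rw [sum_congr rfl fun s _ => hw2 s, sum_add_distrib, ← hd3, sum_ite_eq' univ t,
      if_pos (mem_univ _)]
    abel

theorem rep_of (he : Function.Injective e)
    (hL : ∀ i j, i ≠ j → ∀ v, L i v = 0 → L j v = 0 → v = 0) (h : IsGumm n q p)
    (hθ : ∀ i, Cg n q p (kr e L i)) {i : ι} {x y : A}
    (hxy : ((univ.erase i).sup (kap (kr e L))) x y) : Rep e L i x y := by
  have h1 : (univ.erase i).sup (kap (kr e L)) ≤ Setoid.ker fun x => Rep e L i x := by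
    refine Finset.sup_le fun t ht => ?_
    intro a b hab
    have ht' := (mem_erase.1 ht).1
    show (fun y => Rep e L i a y) = fun y => Rep e L i b y
    funext y
    exact propext ⟨rep_step he hL h hθ ht' ((kap (kr e L) t).symm hab),
      rep_step he hL h hθ ht' hab⟩
  have h2 : Rep e L i x = Rep e L i y := h1 hxy
  rw [h2]
  exact rep_refl i y

theorem top_class (he : Function.Injective e)
    (hL : ∀ i j, i ≠ j → ∀ v, L i v = 0 → L j v = 0 → v = 0) (h : IsGumm n q p)
    (hθ : ∀ i, Cg n q p (kr e L i)) {i : ι} {v y : A}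
    (hv : ∀ w, ((univ.erase i).sup (kap (kr e L))) v w → L i (e w) ≤ L i (e v))
    (hvy : ((univ.erase i).sup (kap (kr e L))) v y) (hi : L i (e y) = L i (e v)) : y = v := by
  obtain ⟨d, hd1, hd2, hd3⟩ := rep_of he hL h hθ hvy
  have h1 : ∀ s ∈ (univ : Finset ι), L i (e (d s) - e v) ≤ 0 := by
    intro s _
    rw [map_sub, sub_nonpos]
    by_cases hs : s = i
    · rw [hs, hd2]
    · exact hv _ ((Finset.le_sup (f := kap (kr e L)) (mem_erase.2 ⟨hs, mem_univ _⟩)) (hd1 s))
  have h2 : ∑ s, L i (e (d s) - e v) = 0 := by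
    rw [← map_sum, ← hd3, map_sub, hi, sub_self]
  have h3 := (sum_eq_zero_iff_of_nonpos h1).1 h2
  have h4 : ∀ s, e (d s) - e v = 0 := by
    intro s
    by_cases hs : s = i
    · rw [hs, hd2, sub_self]
    · refine hL i s (Ne.symm hs) _ (h3 s (mem_univ _)) ?_
      rw [map_sub, kr_iff.1 (hd1 s).1, sub_self]
  refine he (sub_eq_zero.1 ?_)
  rw [hd3]
  exact sum_eq_zero fun s _ => h4 s

theorem kap_bot (he : Function.Injective e)
    (hL : ∀ i j, i ≠ j → ∀ v, L i v = 0 → L j v = 0 → v = 0) (h : IsGumm n q p)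
    (hθ : ∀ i, Cg n q p (kr e L i)) (i : ι) : kap (kr e L) i = ⊥ := by
  refine le_antisymm ?_ bot_le
  intro x y hxy
  show x = y
  set U : Finset A := univ.filter fun w => ((univ.erase i).sup (kap (kr e L))) x w with hU
  have hne : U.Nonempty := ⟨x, mem_filter.2 ⟨mem_univ _, Setoid.refl' _ x⟩⟩
  obtain ⟨v, hv, hmax⟩ := exists_max_image U (fun w => L i (e w)) hne
  have hxv : ((univ.erase i).sup (kap (kr e L))) x v := (mem_filter.1 hv).2
  have h1 : (univ.erase i).sup (kap (kr e L)) ≤
      Setoid.ker fun a => {δ : V | ∃ b, kap (kr e L) i a b ∧ e b - e a = δ} := by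
    refine Finset.sup_le fun t ht => ?_
    have ht' := (mem_erase.1 ht).1
    have key : ∀ a b, kap (kr e L) t a b → ∀ δ,
        (∃ c, kap (kr e L) i b c ∧ e c - e b = δ) → ∃ c, kap (kr e L) i a c ∧ e c - e a = δ := by
      rintro a b hab δ ⟨c, hc, rfl⟩
      exact shift he hL h hθ ht' hab hc
    intro a b hab
    show {δ : V | ∃ c, kap (kr e L) i a c ∧ e c - e a = δ} =
      {δ : V | ∃ c, kap (kr e L) i b c ∧ e c - e b = δ}
    ext δ
    exact ⟨key b a ((kap (kr e L) t).symm hab) δ, key a b hab δ⟩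
  have h2 : {δ : V | ∃ b, kap (kr e L) i x b ∧ e b - e x = δ} =
      {δ : V | ∃ b, kap (kr e L) i v b ∧ e b - e v = δ} := h1 hxv
  have h3 : e y - e x ∈ {δ : V | ∃ b, kap (kr e L) i v b ∧ e b - e v = δ} := by
    rw [← h2]
    exact ⟨y, hxy, rfl⟩
  obtain ⟨y', hy', hd⟩ := h3
  have h4 : y' = v := by
    refine top_class he hL h hθ (i := i) ?_ (kap_le h hθ i hy') (kr_iff.1 hy'.1).symm
    intro w hw
    exact hmax w (mem_filter.2 ⟨mem_univ _, Setoid.trans' _ hxv hw⟩)
  rw [h4, sub_self] at hd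
  exact (he (sub_eq_zero.1 hd.symm)).symm

theorem inf_psi_bot (he : Function.Injective e)
    (hL : ∀ i j, i ≠ j → ∀ v, L i v = 0 → L j v = 0 → v = 0) (h : IsGumm n q p)
    (hθ : ∀ i, Cg n q p (kr e L i)) [Nonempty ι] : univ.inf (psi (kr e L)) ≤ ⊥ := by
  obtain ⟨i⟩ := ‹Nonempty ι›
  refine (inf_psi_le h hθ i).trans (Finset.sup_le fun s _ => ?_)
  rw [kap_bot he hL h hθ s]

theorem plane_bound (he : Function.Injective e)
    (hL : ∀ i j, i ≠ j → ∀ v, L i v = 0 → L j v = 0 → v = 0) (h : IsGumm n q p)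
    (hθ : ∀ i, Cg n q p (kr e L i)) [Nonempty A] [Nonempty ι] :
    Fintype.card A ^ (Fintype.card ι - 1) ≤ ∏ i, #((univ : Finset A).image fun x => L i (e x)) := by
  obtain ⟨m, hm⟩ : ∃ m, Fintype.card ι = m + 1 := ⟨Fintype.card ι - 1, by
    have := Fintype.card_pos (α := ι); omega⟩
  let ε : Fin (m + 1) ≃ ι := (Fintype.equivFinOfCardEq hm).symm
  let P : Fin (m + 1) → Type := fun k => Quotient (psi (kr e L) (ε k))
  let g : A → ∀ k, P k := fun x k => Quotient.mk (psi (kr e L) (ε k)) x
  have hg : Function.Injective g := by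
    intro x y hxy
    have h1 : ∀ s, psi (kr e L) s x y := by
      intro s
      have h2 : g x (ε.symm s) = g y (ε.symm s) := congrFun hxy _
      have h3 := Quotient.exact h2
      rw [ε.apply_symm_apply] at h3
      exact h3
    have h4 : ∀ T : Finset ι, (T.inf (psi (kr e L))) x y := by
      intro T
      induction T using Finset.induction_on with
      | empty => rw [inf_empty]; trivial
      | insert s T _ ih => rw [inf_insert]; exact ⟨h1 s, ih⟩
    exact inf_psi_bot he hL h hθ (h4 univ)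
  have h1 := Pool.Agent.R181.LW.loomisWhitney m P (univ.image g) (univ_nonempty.image _)
  rw [card_image_of_injective _ hg, card_univ] at h1
  rw [hm, Nat.add_sub_cancel]
  refine h1.trans ?_
  rw [← ε.prod_comp]
  refine prod_le_prod' fun k _ => ?_
  rw [image_image]
  refine Pool.Agent.R181.LW.card_image_le_of_factor _ _ _ ?_
  intro x _ y _ hxy
  funext j
  refine Quotient.sound ?_
  refine le_psi (kr e L) (i := ε (k.succAbove j)) (s := ε k) ?_ hxy
  exact fun h0 => Fin.succAbove_ne k j (ε.injective h0).symm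

end plane

end Pool.Agent.H336.Gumm
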