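import Pool.Agent.H336.Kak.WBound

/-!
# Closed sets for which the inequality is an equality
-/

set_option autoImplicit false

namespace Pool.Agent.H336.Kak

open Finset Pool.Agent.H336.Gumm Polynomial

/-- a vector in the kernel of `π_r` -/
def dirv : Option ℚ → ℤ × ℤ
  | none => (1, 0)
  | some r => (-r.num, r.den)

theorem pr_dirv_self (r : Option ℚ) : prHom r (dirv r) = 0 := by
  rcases r with _ | r
  · show ((0 : ℤ) : ℚ) = 0
    norm_num
  · show ((-r.num : ℤ) : ℚ) + r * ((r.den : ℤ) : ℚ) = 0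
    push_cast
    rw [Rat.mul_den_eq_num]
    ring

theorem dirv_ne (r : Option ℚ) : dirv r ≠ 0 := by
  rcases r with _ | r
  · intro h
    exact absurd (congrArg Prod.fst h) (by norm_num [dirv])
  · intro h
    have h1 : ((r.den : ℤ)) = 0 := congrArg Prod.snd h
    exact r.den_ne_zero (by exact_mod_cast h1)

theorem pr_dirv_ne {r s : Option ℚ} (h : r ≠ s) : prHom r (dirv s) ≠ 0 := fun h0 =>
  dirv_ne s (pr_sep h (dirv s) h0 (pr_dirv_self s))

section

variable (S : Finset ℚ) (M : ℕ)

abbrev Ix : Type := {r : Option ℚ // r ∈ insertNone S}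

/-- the point with coordinates `x` -/
noncomputable def pt (B : ℕ) (x : Ix S → Fin (M + 1)) : ℤ × ℤ :=
  ∑ j, ((B : ℤ) ^ (Fintype.equivFin (Ix S) j : ℕ) * ((x j : ℕ) : ℤ)) • dirv j.1

/-- the difference of two projections as a polynomial -/
noncomputable def dpoly (t : Option ℚ) (x y : Ix S → Fin (M + 1)) : ℚ[X] :=
  ∑ j, C ((((x j : ℕ) : ℚ) - ((y j : ℕ) : ℚ)) * prHom t (dirv j.1)) *
    X ^ (Fintype.equivFin (Ix S) j : ℕ)

theorem eval_dpoly (t : Option ℚ) (x y : Ix S → Fin (M + 1)) (B : ℕ) :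
    (dpoly S M t x y).eval (B : ℚ) = prHom t (pt S M B x) - prHom t (pt S M B y) := by
  rw [dpoly, eval_finsetSum, pt, pt, map_sum, map_sum, ← sum_sub_distrib]
  refine sum_congr rfl fun j _ => ?_
  rw [map_zsmul, map_zsmul, eval_mul, eval_C, eval_pow, eval_X, zsmul_eq_mul, zsmul_eq_mul]
  push_cast
  ring

theorem dpoly_ne (t : Option ℚ) (x y : Ix S → Fin (M + 1)) (j : Ix S) (hj : x j ≠ y j)
    (ht : t ≠ j.1) : dpoly S M t x y ≠ 0 := by
  intro h0
  have h1 := congrArg (fun P : ℚ[X] => P.coeff (Fintype.equivFin (Ix S) j : ℕ)) h0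
  simp only [dpoly, finsetSum_coeff, coeff_C_mul, coeff_X_pow, coeff_zero] at h1
  rw [sum_eq_single j] at h1
  · rw [if_pos rfl, mul_one] at h1
    rcases mul_eq_zero.1 h1 with h2 | h2
    · refine hj (Fin.ext ?_)
      exact_mod_cast sub_eq_zero.1 h2
    · exact pr_dirv_ne ht h2
  · intro k _ hk
    rw [if_neg, mul_zero]
    intro h
    exact hk ((Fintype.equivFin (Ix S)).injective (Fin.ext h)).symm
  · intro h
    exact absurd (mem_univ _) h

theorem exists_base : ∃ B : ℕ, ∀ t ∈ insert (some (-1)) (insertNone S),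
    ∀ x y : Ix S → Fin (M + 1), prHom t (pt S M B x) = prHom t (pt S M B y) →
      ∀ j : Ix S, j.1 ≠ t → x j = y j := by
  classical
  set T : Finset (Option ℚ) := insert (some (-1)) (insertNone S) with hT
  let I : Finset (Option ℚ × (Ix S → Fin (M + 1)) × (Ix S → Fin (M + 1))) :=
    (T ×ˢ univ).filter fun a => dpoly S M a.1 a.2.1 a.2.2 ≠ 0
  let Q : ℚ[X] := ∏ a ∈ I, dpoly S M a.1 a.2.1 a.2.2
  have hQ : Q ≠ 0 := prod_ne_zero_iff.2 fun a ha => (mem_filter.1 ha).2
  obtain ⟨B, hB⟩ : ∃ B : ℕ, Q.eval (B : ℚ) ≠ 0 := by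
    by_contra hcon
    push Not at hcon
    refine hQ (eq_zero_of_infinite_isRoot Q ?_)
    exact Set.infinite_of_injective_forall_mem Nat.cast_injective fun B : ℕ => hcon B
  refine ⟨B, fun t ht x y hxy j hj => ?_⟩
  by_contra hne
  have h1 := dpoly_ne S M t x y j hne hj.symm
  have h2 : (t, x, y) ∈ I := mem_filter.2 ⟨mem_product.2 ⟨ht, mem_univ _⟩, h1⟩
  refine hB ?_
  show (∏ a ∈ I, dpoly S M a.1 a.2.1 a.2.2).eval (B : ℚ) = 0
  rw [eval_prod]
  refine prod_eq_zero h2 ?_
  rw [eval_dpoly, hxy, sub_self]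

theorem pt_agree (B : ℕ) (t : Option ℚ) (x y : Ix S → Fin (M + 1))
    (h : ∀ j : Ix S, j.1 ≠ t → x j = y j) : prHom t (pt S M B x) = prHom t (pt S M B y) := by
  rw [pt, pt, map_sum, map_sum]
  refine sum_congr rfl fun j _ => ?_
  by_cases hj : j.1 = t
  · rw [map_zsmul, map_zsmul, hj, pr_dirv_self, smul_zero, smul_zero]
  · rw [h j hj]

end

/-- the dual discriminator -/
noncomputable def dd {X : Type} (a b c : X) : X := by
  classical exact if b = c then b else a

theorem dd1 {X : Type} (a b : X) : dd a a b = a := by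
  unfold dd; split_ifs with h <;> simp_all

theorem dd2 {X : Type} (a b : X) : dd a b a = a := by
  unfold dd; split_ifs with h <;> simp_all

theorem dd3 {X : Type} (a b : X) : dd b a a = a := by
  unfold dd; rw [if_pos rfl]

theorem gumm_of_maj {X : Type} (μ : X → X → X → X) (h1 : ∀ a b, μ a a b = a)
    (h2 : ∀ a b, μ a b a = a) (h3 : ∀ a b, μ b a a = a) :
    IsGumm 2 (fun k => if k = 2 then μ else fun a _ _ => a) (fun _ _ c => c) := by
  refine ⟨?_, ?_, ?_, ?_, ?_, ?_⟩
  · intro x y z; simp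
  · intro k _ x y
    by_cases hk : k = 2
    · rw [if_pos hk]; exact h2 x y
    · rw [if_neg hk]
  · intro k hk he x y
    have : k = 0 := by omega
    subst this
    simp
  · intro k hk he x y
    have : k = 1 := by omega
    subst this
    simp [h1]
  · intro x y; simp [h3]
  · intro x y; rfl

theorem wnu_of_maj {X : Type} (μ : X → X → X → X) (h1 : ∀ a b, μ a a b = a)
    (h2 : ∀ a b, μ a b a = a) (h3 : ∀ a b, μ b a a = a) :
    IsWnu (m := 3) fun a : Fin 3 → X => μ (a 0) (a 1) (a 2) := by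
  refine ⟨fun x => h1 x x, ?_⟩
  have key : ∀ (i : Fin 3) (x y : X), μ (Function.update (fun _ => x) i y 0)
      (Function.update (fun _ => x) i y 1) (Function.update (fun _ => x) i y 2) = x := by
    intro i x y
    fin_cases i
    · simp [Function.update, h3]
    · simp [Function.update, h2]
    · simp [Function.update, h1]
  intro i j x y
  rw [key, key]

theorem closed_of_maj (S : Finset ℚ) (A : Finset (ℤ × ℤ)) (μ : Option ℚ → ℚ → ℚ → ℚ → ℚ)
    (hmaj : ∀ r ∈ insertNone S, (∀ a b, μ r a a b = a) ∧ (∀ a b, μ r a b a = a) ∧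
      ∀ a b, μ r b a a = a)
    (hcl : ∀ a ∈ A, ∀ b ∈ A, ∀ c ∈ A, ∃ d ∈ A, ∀ r ∈ insertNone S,
      pr r d = μ r (pr r a) (pr r b) (pr r c)) : GummClosed S A ∧ WnuClosed S A := by
  refine ⟨⟨2, fun r k => if k = 2 then μ r else fun a _ _ => a, fun _ _ _ c => c, ?_, ?_⟩,
    3, fun r a => μ r (a 0) (a 1) (a 2), by norm_num, ?_, ?_⟩
  · intro r hr
    exact gumm_of_maj (μ r) (hmaj r hr).1 (hmaj r hr).2.1 (hmaj r hr).2.2
  · intro a ha b hb c hc
    refine ⟨fun k _ => ?_, c, hc, fun _ _ => rfl⟩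
    by_cases hk : k = 2
    · obtain ⟨d, hd, hd'⟩ := hcl a ha b hb c hc
      refine ⟨d, hd, fun r hr => ?_⟩
      simp only [if_pos hk]
      exact hd' r hr
    · refine ⟨a, ha, fun r _ => ?_⟩
      simp only [if_neg hk]
  · intro r hr
    exact wnu_of_maj (μ r) (hmaj r hr).1 (hmaj r hr).2.1 (hmaj r hr).2.2
  · intro a ha
    exact hcl (a 0) (ha 0) (a 1) (ha 1) (a 2) (ha 2)

theorem sharp (S : Finset ℚ) (N : ℕ) (hN : 1 ≤ N) : ∃ A : Finset (ℤ × ℤ),
    (GummClosed S A ∧ WnuClosed S A) ∧
    #A = N ^ (#S + 1) ∧ (∀ r ∈ insertNone S, #(proj r A) = N ^ #S) ∧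
    (-1 ∉ S → #(proj (some (-1)) A) = N ^ (#S + 1)) := by
  classical
  obtain ⟨M, rfl⟩ : ∃ M, N = M + 1 := ⟨N - 1, by omega⟩
  obtain ⟨B, hB⟩ := exists_base S M
  have hcard : Fintype.card (Ix S) = #S + 1 := by rw [Fintype.card_coe, card_insertNone]
  have hnone : (none : Option ℚ) ∈ insert (some (-1)) (insertNone S) :=
    mem_insert_of_mem none_mem_insertNone
  have hinj : Function.Injective (pt S M B) := by
    intro x y hxy
    funext j
    by_cases hj : j.1 = none
    · exact hB (some (-1)) (mem_insert_self _ _) x y (by rw [hxy]) j (by rw [hj]; simp)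
    · exact hB none hnone x y (by rw [hxy]) j hj
  refine ⟨univ.image (pt S M B), ?_, ?_, ?_, ?_⟩
  · -- closedness
    let R : Option ℚ → ℚ → (Ix S → Fin (M + 1)) → Prop := fun r u x => prHom r (pt S M B x) = u
    let μ : Option ℚ → ℚ → ℚ → ℚ → ℚ := fun r u v w =>
      if h : (∃ x, R r u x) ∧ (∃ x, R r v x) ∧ ∃ x, R r w x then
        prHom r (pt S M B fun j => dd (h.1.choose j) (h.2.1.choose j) (h.2.2.choose j))
      else dd u v w
    have hμ : ∀ r ∈ insertNone S, ∀ x y z, μ r (prHom r (pt S M B x)) (prHom r (pt S M B y))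
        (prHom r (pt S M B z)) = prHom r (pt S M B fun j => dd (x j) (y j) (z j)) := by
      intro r hr x y z
      have h : (∃ x', R r (prHom r (pt S M B x)) x') ∧ (∃ x', R r (prHom r (pt S M B y)) x') ∧
        ∃ x', R r (prHom r (pt S M B z)) x' := ⟨⟨x, rfl⟩, ⟨y, rfl⟩, ⟨z, rfl⟩⟩
      have e0 : μ r (prHom r (pt S M B x)) (prHom r (pt S M B y)) (prHom r (pt S M B z)) =
        prHom r (pt S M B fun j => dd (h.1.choose j) (h.2.1.choose j) (h.2.2.choose j)) :=
        dif_pos h
      rw [e0]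
      refine pt_agree S M B r _ _ fun j hj => ?_
      have hr' := mem_insert_of_mem (b := some (-1)) hr
      rw [hB r hr' _ _ h.1.choose_spec j hj, hB r hr' _ _ h.2.1.choose_spec j hj,
        hB r hr' _ _ h.2.2.choose_spec j hj]
    have hmaj : ∀ r ∈ insertNone S, (∀ a b, μ r a a b = a) ∧ (∀ a b, μ r a b a = a) ∧
        ∀ a b, μ r b a a = a := by
      intro r hr
      have key : ∀ a b, (∃ x, R r a x) → (∃ x, R r b x) → μ r a a b = a ∧ μ r a b a = a ∧
          μ r b a a = a := by
        rintro a b ⟨x, rfl⟩ ⟨y, rfl⟩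
        refine ⟨?_, ?_, ?_⟩
        · rw [hμ r hr x x y]
          simp only [dd1]
        · rw [hμ r hr x y x]
          simp only [dd2]
        · rw [hμ r hr y x x]
          simp only [dd3]
      refine ⟨fun a b => ?_, fun a b => ?_, fun a b => ?_⟩
      · by_cases h : (∃ x, R r a x) ∧ ∃ x, R r b x
        · exact (key a b h.1 h.2).1
        · have : μ r a a b = dd a a b := dif_neg fun h' => h ⟨h'.1, h'.2.2⟩
          rw [this, dd1]
      · by_cases h : (∃ x, R r a x) ∧ ∃ x, R r b x
        · exact (key a b h.1 h.2).2.1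
        · have : μ r a b a = dd a b a := dif_neg fun h' => h ⟨h'.1, h'.2.1⟩
          rw [this, dd2]
      · by_cases h : (∃ x, R r a x) ∧ ∃ x, R r b x
        · exact (key a b h.1 h.2).2.2
        · have : μ r b a a = dd b a a := dif_neg fun h' => h ⟨h'.2.1, h'.1⟩
          rw [this, dd3]
    refine closed_of_maj S _ μ hmaj fun a ha b hb c hc => ?_
    obtain ⟨x, -, rfl⟩ := mem_image.1 ha
    obtain ⟨y, -, rfl⟩ := mem_image.1 hb
    obtain ⟨z, -, rfl⟩ := mem_image.1 hc
    refine ⟨pt S M B fun j => dd (x j) (y j) (z j), mem_image_of_mem _ (mem_univ _),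
      fun r hr => ?_⟩
    exact (hμ r hr x y z).symm
  · rw [card_image_of_injective _ hinj, card_univ, Fintype.card_fun, hcard, Fintype.card_fin]
  · intro r hr
    have hr' := mem_insert_of_mem (b := some (-1)) hr
    let ext : ({j : Ix S // j.1 ≠ r} → Fin (M + 1)) → Ix S → Fin (M + 1) := fun x j =>
      if h : j.1 ≠ r then x ⟨j, h⟩ else 0
    have h1 : proj r (univ.image (pt S M B)) = univ.image fun x => prHom r (pt S M B (ext x)) := by
      rw [proj, image_image]
      apply Finset.Subset.antisymm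
      · intro u hu
        obtain ⟨x, -, rfl⟩ := mem_image.1 hu
        refine mem_image.2 ⟨fun j => x j.1, mem_univ _, ?_⟩
        refine pt_agree S M B r _ _ fun j hj => ?_
        show ext (fun j => x j.1) j = x j
        exact dif_pos hj
      · intro u hu
        obtain ⟨x, -, rfl⟩ := mem_image.1 hu
        exact mem_image.2 ⟨ext x, mem_univ _, rfl⟩
    have h2 : Function.Injective fun x => prHom r (pt S M B (ext x)) := by
      intro x y hxy
      funext j
      have h3 := hB r hr' _ _ hxy j.1 j.2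
      have h4 : ext x j.1 = x j := dif_pos j.2
      have h5 : ext y j.1 = y j := dif_pos j.2
      rw [← h4, ← h5, h3]
    rw [h1, card_image_of_injective _ h2, card_univ, Fintype.card_fun, Fintype.card_fin]
    congr 1
    have h6 : Fintype.card {j : Ix S // j.1 ≠ r} = Fintype.card {j : Ix S // j ≠ ⟨r, hr⟩} :=
      Fintype.card_congr (Equiv.subtypeEquivRight fun j => by
        rw [not_iff_not]
        exact ⟨fun h => Subtype.ext h, fun h => congrArg Subtype.val h⟩)
    rw [h6, Fintype.card_subtype_compl, Fintype.card_subtype_eq, hcard, Nat.add_sub_cancel]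
  · intro hS
    rw [proj, image_image]
    rw [card_image_of_injective, card_univ, Fintype.card_fun, hcard, Fintype.card_fin]
    intro x y hxy
    funext j
    refine hB (some (-1)) (mem_insert_self _ _) x y hxy j fun hj => hS ?_
    have := j.2
    rw [hj] at this
    exact some_mem_insertNone.1 this

end Pool.Agent.H336.Kak
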