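import Pool.Agent.H336.Kak.Plane

/-!
# Finite sets in a plane which are closed under a weak near-unanimity operation

The kernels of the projections are independent, as in the case of Gumm operations. The smallest
counterexample would have a Mal'tsev operation.
-/

set_option autoImplicit false
set_option linter.unusedSectionVars false

namespace Pool.Agent.H336.Gumm

open Finset Classical
open Pool.Agent.R181.Maj (Compat)

/-- `w` is a weak near-unanimity operation: `w(x,...,x) = x`, and the value
`w(x,...,x,y,x,...,x)` does not depend on the place of `y`. -/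
structure IsWnu {X : Type} {m : ℕ} (w : (Fin m → X) → X) : Prop where
  idem : ∀ x, w (fun _ => x) = x
  wnu : ∀ i j x y, w (Function.update (fun _ => x) i y) = w (Function.update (fun _ => x) j y)

theorem sup_pres {A A' ι : Type} {θ : ι → Setoid A} {θ' : ι → Setoid A'} {f : A → A'}
    {T : Finset ι} (hf : ∀ s ∈ T, ∀ a b, θ s a b → θ' s (f a) (f b)) {a b : A}
    (h : (T.sup θ) a b) : (T.sup θ') (f a) (f b) := by
  have h1 : T.sup θ ≤ Setoid.comap f (T.sup θ') := Finset.sup_le fun s hs a b hab =>
    (Finset.le_sup (f := θ') hs) (hf s hs a b hab)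
  exact h1 h

/-- The term condition. -/
theorem tc {A ι : Type} {θ : ι → Setoid A} {T : Finset ι} {δ : Setoid A}
    (hδ : ∀ s ∈ T, ∀ a b, δ a b → θ s a b → a = b) {f g : A → A}
    (hf : ∀ s a b, θ s a b → θ s (f a) (f b)) (hg : ∀ s a b, θ s a b → θ s (g a) (g b))
    (hfg : ∀ z, δ (f z) (g z)) {z z' : A} (hz : (T.sup θ) z z') (h : f z = g z) : f z' = g z' := by
  have h1 : T.sup θ ≤ Setoid.ker fun z => f z = g z := by
    refine Finset.sup_le fun s hs => ?_
    have key : ∀ a b, θ s a b → f a = g a → f b = g b := by
      intro a b hab h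
      refine hδ s hs _ _ (hfg b) ((θ s).trans (hf s _ _ ((θ s).symm hab)) ?_)
      rw [h]
      exact hg s _ _ hab
    intro a b hab
    exact propext ⟨key a b hab, key b a ((θ s).symm hab)⟩
  have h2 : (f z = g z) = (f z' = g z') := h1 hz
  rwa [← h2]

theorem exists_idem {A : Type} [Finite A] (f : A → A → A) :
    ∃ k, ∀ c z, (f c)^[k + 1] ((f c)^[k + 1] z) = (f c)^[k + 1] z := by
  obtain ⟨a, b, hab, h⟩ := Finite.exists_ne_map_eq_of_infinite
    fun j : ℕ => fun c z => (f c)^[j] z
  wlog hlt : a < b generalizing a b
  · exact this b a hab.symm h.symm (by omega)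
  obtain ⟨d, rfl⟩ : ∃ d, b = a + (d + 1) := ⟨b - a - 1, by omega⟩
  have h1 : ∀ t, a ≤ t → ∀ c z, (f c)^[t + (d + 1)] z = (f c)^[t] z := by
    intro t ht c z
    obtain ⟨r, rfl⟩ : ∃ r, t = r + a := ⟨t - a, by omega⟩
    have h2 : (f c)^[a + (d + 1)] z = (f c)^[a] z := (congrFun (congrFun h c) z).symm
    rw [add_assoc, Function.iterate_add_apply, h2, ← Function.iterate_add_apply]
  have h3 : ∀ q t, a ≤ t → ∀ c z, (f c)^[t + q * (d + 1)] z = (f c)^[t] z := by
    intro q
    induction q with
    | zero => intro t _ c z; simp
    | succ q ih =>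
      intro t ht c z
      have : t + (q + 1) * (d + 1) = (t + q * (d + 1)) + (d + 1) := by ring
      rw [this, h1 _ (by omega), ih t ht]
  refine ⟨(a + 1) * (d + 1) - 1, fun c z => ?_⟩
  have h4 : (a + 1) * (d + 1) - 1 + 1 = (a + 1) * (d + 1) := by
    have : 0 < (a + 1) * (d + 1) := by positivity
    omega
  rw [h4, ← Function.iterate_add_apply]
  refine h3 (a + 1) _ ?_ c z
  nlinarith

section

variable {ι : Type} [Fintype ι] {V : Type} [AddCommGroup V] {L : ι → V →+ ℚ} {m : ℕ}

/-- A finite set with a weak near-unanimity operation compatible with the projections. -/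
structure Sys (L : ι → V →+ ℚ) (A : Type) (e : A → V) (w : (Fin m → A) → A) : Prop where
  inj : Function.Injective e
  wnu : IsWnu w
  comp : ∀ s a b, (∀ i, kr e L s (a i) (b i)) → kr e L s (w a) (w b)

variable {A : Type} {e : A → V} {w : (Fin m → A) → A}

/-- `c ∘ z = w(z, c, ..., c)` -/
def circ (hm : 2 ≤ m) (w : (Fin m → A) → A) (c z : A) : A :=
  w (Function.update (fun _ => c) ⟨0, by omega⟩ z)

theorem circ_pres (hm : 2 ≤ m) (S : Sys L A e w) (s : ι) (c c' z z' : A) (hc : kr e L s c c')
    (hz : kr e L s z z') : kr e L s (circ hm w c z) (circ hm w c' z') := by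
  refine S.comp s _ _ fun i => ?_
  by_cases h : i = ⟨0, by omega⟩
  · rw [h, Function.update_self, Function.update_self]; exact hz
  · rw [Function.update_of_ne h, Function.update_of_ne h]; exact hc

theorem it_pres (hm : 2 ≤ m) (S : Sys L A e w) (s : ι) (k : ℕ) : ∀ c c' z z' : A,
    kr e L s c c' → kr e L s z z' →
      kr e L s ((circ hm w c)^[k] z) ((circ hm w c')^[k] z') := by
  induction k with
  | zero => intro c c' z z' _ hz; exact hz
  | succ k ih =>
    intro c c' z z' hc hz
    rw [Function.iterate_succ_apply', Function.iterate_succ_apply']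
    exact circ_pres hm S s _ _ _ _ hc (ih _ _ _ _ hc hz)

theorem circ_self (hm : 2 ≤ m) (S : Sys L A e w) (c : A) : circ hm w c c = c := by
  rw [circ, Function.update_eq_self_iff.2 rfl]
  exact S.wnu.idem c

theorem it_self (hm : 2 ≤ m) (S : Sys L A e w) (k : ℕ) (c : A) : (circ hm w c)^[k] c = c := by
  induction k with
  | zero => rfl
  | succ k ih => rw [Function.iterate_succ_apply', ih, circ_self hm S]

theorem circ_inj (hm : 2 ≤ m) (S : Sys L A e w) {T : Finset ι} {δ : Setoid A}
    (hδ : ∀ s ∈ T, ∀ a b, δ a b → kr e L s a b → a = b)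
    (hpres : ∀ f : A → A, (∀ s a b, kr e L s a b → kr e L s (f a) (f b)) →
      ∀ a b, δ a b → δ (f a) (f b))
    {x y : A} (hxy : δ x y) (hl : (T.sup (kr e L)) x y) (h : circ hm w x y = x) : x = y := by
  have key : ∀ k ≤ m, w (fun j => if j.1 < k then y else x) = x := by
    intro k
    induction k with
    | zero =>
      intro _
      simp only [Nat.not_lt_zero, if_false]
      exact S.wnu.idem x
    | succ k ih =>
      intro hk
      have h1 := ih (by omega)
      let f : A → A := fun z => w fun j => if j.1 < k then z else if j.1 = k then y else x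
      let g : A → A := fun z => w fun j => if j.1 < k then z else x
      have hf : ∀ s a b, kr e L s a b → kr e L s (f a) (f b) := by
        intro s a b hab
        refine S.comp s _ _ fun i => ?_
        by_cases h1 : i.1 < k
        · simp only [if_pos h1]; exact hab
        · simp only [if_neg h1]; exact (kr e L s).refl _
      have hg : ∀ s a b, kr e L s a b → kr e L s (g a) (g b) := by
        intro s a b hab
        refine S.comp s _ _ fun i => ?_
        by_cases h1 : i.1 < k
        · simp only [if_pos h1]; exact hab
        · simp only [if_neg h1]; exact (kr e L s).refl _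
      have hfg : ∀ z, δ (f z) (g z) := by
        intro z
        let t : A → A := fun b => w fun j => if j.1 < k then z else if j.1 = k then b else x
        have e1 : g z = t x := by
          show (w fun j => if j.1 < k then z else x) =
            w fun j => if j.1 < k then z else if j.1 = k then x else x
          congr 1
          funext j
          split_ifs <;> rfl
        rw [e1]
        refine δ.symm (hpres t ?_ x y hxy)
        intro s a b hab
        refine S.comp s _ _ fun i => ?_
        by_cases h1 : i.1 < k
        · simp only [if_pos h1]; exact (kr e L s).refl _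
        · simp only [if_neg h1]
          by_cases h2 : i.1 = k
          · simp only [if_pos h2]; exact hab
          · simp only [if_neg h2]; exact (kr e L s).refl _
      have h0 : f x = g x := by
        have e1 : f x = w (Function.update (fun _ => x) ⟨k, by omega⟩ y) := by
          show (w fun j => if j.1 < k then x else if j.1 = k then y else x) = _
          congr 1
          funext j
          by_cases hj : j = ⟨k, by omega⟩
          · rw [hj, Function.update_self]
            simp
          · rw [Function.update_of_ne hj]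
            have : j.1 ≠ k := fun h => hj (Fin.ext h)
            simp [this]
        have e2 : g x = x := by
          show (w fun j => if j.1 < k then x else x) = x
          simp only [ite_self]
          exact S.wnu.idem x
        rw [e1, e2, S.wnu.wnu _ ⟨0, by omega⟩]
        exact h
      have h2 := tc hδ hf hg hfg hl h0
      have e3 : f y = w fun j => if j.1 < k + 1 then y else x := by
        show (w fun j => if j.1 < k then y else if j.1 = k then y else x) = _
        congr 1
        funext j
        by_cases h1 : j.1 < k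
        · rw [if_pos h1, if_pos (by omega)]
        · rw [if_neg h1]
          by_cases h2 : j.1 = k
          · rw [if_pos h2, if_pos (by omega)]
          · rw [if_neg h2, if_neg (by omega)]
      rw [← e3, h2]
      exact h1
  have h1 := key m le_rfl
  have h2 : (fun j : Fin m => if j.1 < m then y else x) = fun _ => y := by
    funext j
    rw [if_pos j.2]
  rw [h2, S.wnu.idem] at h1
  exact h1.symm

theorem it_inj (hm : 2 ≤ m) (S : Sys L A e w) {T : Finset ι} {δ : Setoid A}
    (hδ : ∀ s ∈ T, ∀ a b, δ a b → kr e L s a b → a = b)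
    (hpres : ∀ f : A → A, (∀ s a b, kr e L s a b → kr e L s (f a) (f b)) →
      ∀ a b, δ a b → δ (f a) (f b))
    {x y : A} (hxy : δ x y) (hl : (T.sup (kr e L)) x y) (k : ℕ)
    (h : (circ hm w x)^[k] y = x) : x = y := by
  induction k with
  | zero => exact h.symm
  | succ k ih =>
    rw [Function.iterate_succ_apply'] at h
    have hp : ∀ s a b, kr e L s a b →
        kr e L s ((circ hm w x)^[k] a) ((circ hm w x)^[k] b) := fun s a b hab =>
      it_pres hm S s k _ _ _ _ ((kr e L s).refl x) hab
    have h1 := hpres _ hp x y hxy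
    have h2 := sup_pres (T := T) (θ := kr e L) (θ' := kr e L) (f := (circ hm w x)^[k])
      (fun s _ => hp s) hl
    rw [it_self hm S] at h1 h2
    exact ih (circ_inj hm S hδ hpres h1 h2 h).symm

/-- all the `ψ k` hold -/
def Uu (e : A → V) (L : ι → V →+ ℚ) (x y : A) : Prop := ∀ k, psi (kr e L) k x y

theorem uu_pres {A' : Type} {e' : A' → V} {f : A → A'}
    (hf : ∀ s a b, kr e L s a b → kr e' L s (f a) (f b)) {x y : A} (h : Uu e L x y) :
    Uu e' L (f x) (f y) := fun k => sup_pres (fun s _ => hf s) (h k)

theorem pres_kap {f : A → A} (hf : ∀ s a b, kr e L s a b → kr e L s (f a) (f b)) {i : ι}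
    {x y : A} (h : kap (kr e L) i x y) : kap (kr e L) i (f x) (f y) :=
  ⟨hf i _ _ h.1, sup_pres (θ' := kr e L) (fun s _ => hf s) h.2⟩

/-- the image of an idempotent polynomial -/
theorem sys_retract (S : Sys L A e w) (E : A → A) (hE : ∀ a, E (E a) = E a)
    (hp : ∀ s a b, kr e L s a b → kr e L s (E a) (E b)) :
    Sys L {a : A // E a = a} (fun a => e a.1) (fun a => ⟨E (w fun i => (a i).1), hE _⟩) := by
  refine ⟨fun a b hab => Subtype.ext (S.inj hab), ⟨fun x => ?_, fun i j x y => ?_⟩, ?_⟩
  · refine Subtype.ext ?_
    show E (w fun _ => x.1) = x.1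
    rw [S.wnu.idem, x.2]
  · refine Subtype.ext ?_
    have h1 : ∀ i : Fin m, (fun l => (Function.update (fun _ => x) i y l).1) =
        Function.update (fun _ => x.1) i y.1 := by
      intro i
      funext l
      by_cases hl : l = i
      · rw [hl, Function.update_self, Function.update_self]
      · rw [Function.update_of_ne hl, Function.update_of_ne hl]
    show E (w fun l => (Function.update (fun _ => x) i y l).1) =
      E (w fun l => (Function.update (fun _ => x) j y l).1)
    rw [h1, h1, S.wnu.wnu i j]
  · intro s a b hab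
    exact hp s _ _ (S.comp s _ _ hab)

theorem compat_sup_n (S : Sys L A e w) (T : Finset ι) (a b : Fin m → A)
    (h : ∀ i, (T.sup (kr e L)) (a i) (b i)) : (T.sup (kr e L)) (w a) (w b) := by
  have key : ∀ K : Finset (Fin m),
      (T.sup (kr e L)) (w a) (w fun i => if i ∈ K then b i else a i) := by
    intro K
    induction K using Finset.induction_on with
    | empty =>
      simp only [notMem_empty, if_false]
      exact Setoid.refl' _ _
    | insert i K hi ih =>
      refine Setoid.trans' _ ih ?_
      let f : A → A := fun z => w fun j => if j = i then z else if j ∈ K then b j else a j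
      have hf : ∀ s ∈ T, ∀ c d, kr e L s c d → kr e L s (f c) (f d) := by
        intro s _ c d hcd
        refine S.comp s _ _ fun j => ?_
        by_cases hj : j = i
        · simp only [if_pos hj]; exact hcd
        · simp only [if_neg hj]; exact (kr e L s).refl _
      have h1 := sup_pres (θ' := kr e L) (f := f) hf (h i)
      have e1 : f (a i) = w fun j => if j ∈ K then b j else a j := by
        show (w fun j => if j = i then a i else if j ∈ K then b j else a j) = _
        congr 1
        funext j
        by_cases hj : j = i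
        · rw [if_pos hj, hj, if_neg hi]
        · rw [if_neg hj]
      have e2 : f (b i) = w fun j => if j ∈ insert i K then b j else a j := by
        show (w fun j => if j = i then b i else if j ∈ K then b j else a j) = _
        congr 1
        funext j
        by_cases hj : j = i
        · rw [if_pos hj, hj, if_pos (mem_insert_self _ _)]
        · rw [if_neg hj]
          by_cases hK : j ∈ K
          · rw [if_pos hK, if_pos (mem_insert_of_mem hK)]
          · rw [if_neg hK, if_neg]
            intro h0
            rcases mem_insert.1 h0 with h0 | h0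
            · exact hj h0
            · exact hK h0
      rwa [e1, e2] at h1
  have h1 := key univ
  simpa using h1

/-- a class of a join of kernels -/
theorem sys_class (S : Sys L A e w) (T : Finset ι) (x : A) :
    ∃ w' : (Fin m → {a : A // (T.sup (kr e L)) x a}) → {a : A // (T.sup (kr e L)) x a},
      Sys L {a : A // (T.sup (kr e L)) x a} (fun a => e a.1) w' := by
  have hcl : ∀ a : Fin m → {a : A // (T.sup (kr e L)) x a},
      (T.sup (kr e L)) x (w fun i => (a i).1) := by
    intro a
    have h1 := compat_sup_n S T (fun _ => x) (fun i => (a i).1) fun i => (a i).2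
    rwa [S.wnu.idem] at h1
  refine ⟨fun a => ⟨w fun i => (a i).1, hcl a⟩,
    ⟨fun a b hab => Subtype.ext (S.inj hab), ⟨fun y => ?_, fun i j y z => ?_⟩, ?_⟩⟩
  · refine Subtype.ext ?_
    show (w fun _ => y.1) = y.1
    rw [S.wnu.idem]
  · refine Subtype.ext ?_
    have h1 : ∀ i : Fin m, (fun l => (Function.update (fun _ => y) i z l).1) =
        Function.update (fun _ => y.1) i z.1 := by
      intro i
      funext l
      by_cases hl : l = i
      · rw [hl, Function.update_self, Function.update_self]
      · rw [Function.update_of_ne hl, Function.update_of_ne hl]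
    show (w fun l => (Function.update (fun _ => y) i z l).1) =
      w fun l => (Function.update (fun _ => y) j z l).1
    rw [h1, h1, S.wnu.wnu i j]
  · intro s a b hab
    exact S.comp s _ _ hab

/-- Paths stay in a class. -/
theorem lift_class (T K : Finset ι) (hK : K ⊆ T) (x : A)
    {a b : {a : A // (T.sup (kr e L)) x a}} (h : (K.sup (kr e L)) a.1 b.1) :
    (K.sup (kr (fun a : {a : A // (T.sup (kr e L)) x a} => e a.1) L)) a b := by
  set e' : {a : A // (T.sup (kr e L)) x a} → V := fun a => e a.1 with he'
  have h1 : K.sup (kr e L) ≤ Setoid.ker fun z =>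
      ∃ hz : (T.sup (kr e L)) x z, (K.sup (kr e' L)) a ⟨z, hz⟩ := by
    refine Finset.sup_le fun s hs => ?_
    have key : ∀ c d, kr e L s c d →
        (∃ hz : (T.sup (kr e L)) x c, (K.sup (kr e' L)) a ⟨c, hz⟩) →
        ∃ hz : (T.sup (kr e L)) x d, (K.sup (kr e' L)) a ⟨d, hz⟩ := by
      rintro c d hcd ⟨hc, hac⟩
      have hd : (T.sup (kr e L)) x d :=
        Setoid.trans' _ hc ((Finset.le_sup (f := kr e L) (hK hs)) hcd)
      refine ⟨hd, Setoid.trans' _ hac ?_⟩
      have h2 : kr e' L s ⟨c, hc⟩ ⟨d, hd⟩ := hcd
      exact (Finset.le_sup (f := kr e' L) hs) h2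
    intro c d hcd
    exact propext ⟨key c d hcd, key d c ((kr e L s).symm hcd)⟩
  have h2 : (∃ hz : (T.sup (kr e L)) x a.1, (K.sup (kr e' L)) a ⟨a.1, hz⟩) =
      ∃ hz : (T.sup (kr e L)) x b.1, (K.sup (kr e' L)) a ⟨b.1, hz⟩ := h1 h
  have h3 : ∃ hz : (T.sup (kr e L)) x b.1, (K.sup (kr e' L)) a ⟨b.1, hz⟩ := by
    rw [← h2]
    exact ⟨a.2, Setoid.refl' _ _⟩
  exact h3.2

/-- If all of the maps `c ∘ ·` are permutations, there is a Mal'tsev operation. -/
theorem malcev (hm : 2 ≤ m) (S : Sys L A e w) (k : ℕ)
    (hid : ∀ c z, (circ hm w c)^[k + 1] z = z) :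
    ∃ p : A → A → A → A, IsGumm 0 (fun _ x _ _ => x) p ∧
      ∀ s, Cg 0 (fun _ x _ _ => x) p (kr e L s) := by
  let p : A → A → A → A := fun x y z =>
    (circ hm w y)^[k] (w fun j => if j.1 = 0 then x else if j.1 = 1 then z else y)
  have e1 : ∀ c z, p c c z = z := by
    intro c z
    have h1 : (w fun j => if j.1 = 0 then c else if j.1 = 1 then z else c) = circ hm w c z := by
      rw [circ, S.wnu.wnu _ ⟨1, by omega⟩]
      congr 1
      funext j
      by_cases hj : j = ⟨1, by omega⟩
      · rw [hj, Function.update_self]; simp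
      · rw [Function.update_of_ne hj]
        have : j.1 ≠ 1 := fun h => hj (Fin.ext h)
        simp [this]
    show (circ hm w c)^[k] _ = z
    rw [h1, ← Function.iterate_succ_apply]
    exact hid c z
  have e2 : ∀ x y, p x y y = x := by
    intro x y
    have h1 : (w fun j => if j.1 = 0 then x else if j.1 = 1 then y else y) = circ hm w y x := by
      rw [circ]
      congr 1
      funext j
      by_cases hj : j = ⟨0, by omega⟩
      · rw [hj, Function.update_self]; simp
      · rw [Function.update_of_ne hj]
        have : j.1 ≠ 0 := fun h => hj (Fin.ext h)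
        simp [this]
    show (circ hm w y)^[k] _ = x
    rw [h1, ← Function.iterate_succ_apply]
    exact hid y x
  refine ⟨p, ⟨fun _ _ _ => rfl, fun _ _ _ _ => rfl, fun i hi => by omega, fun i hi => by omega,
    fun x y => (e2 x y).symm, e1⟩, fun s => ⟨fun _ _ a a' b b' c c' h1 _ _ => h1, ?_⟩⟩
  intro a a' b b' c c' h1 h2 h3
  refine it_pres hm S s k _ _ _ _ h2 (S.comp s _ _ fun j => ?_)
  by_cases hj : j.1 = 0
  · simp only [if_pos hj]; exact h1
  · simp only [if_neg hj]
    by_cases hj' : j.1 = 1
    · simp only [if_pos hj']; exact h3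
    · simp only [if_neg hj']; exact h2

/-- The main step. -/
theorem core (hL : ∀ i j, i ≠ j → ∀ v, L i v = 0 → L j v = 0 → v = 0) (hm : 2 ≤ m)
    [Fintype A] [Nonempty ι] (S : Sys L A e w)
    (IH : ∀ (A' : Type) [Fintype A'] (e' : A' → V) (w' : (Fin m → A') → A'), Sys L A' e' w' →
      Fintype.card A' < Fintype.card A → ∀ x y, Uu e' L x y → x = y)
    (T : Finset ι) (δ : Setoid A) (hδ : ∀ s ∈ T, ∀ a b, δ a b → kr e L s a b → a = b)
    (hpres : ∀ f : A → A, (∀ s a b, kr e L s a b → kr e L s (f a) (f b)) →
      ∀ a b, δ a b → δ (f a) (f b))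
    {x y : A} (hxy : δ x y) (hl : (T.sup (kr e L)) x y) (hu : Uu e L x y)
    (hC : Uu (fun a : {a : A // (T.sup (kr e L)) x a} => e a.1) L
      ⟨x, Setoid.refl' _ x⟩ ⟨y, hl⟩) : x = y := by
  by_contra hne
  by_cases hall : ∀ a, (T.sup (kr e L)) x a
  · obtain ⟨k, hk⟩ := exists_idem (circ hm w)
    have hid : ∀ c z, (circ hm w c)^[k + 1] z = z := by
      intro c
      by_contra hcon
      push Not at hcon
      obtain ⟨z, hz⟩ := hcon
      have hp : ∀ s a b, kr e L s a b →
          kr e L s ((circ hm w c)^[k + 1] a) ((circ hm w c)^[k + 1] b) := fun s a b hab =>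
        it_pres hm S s (k + 1) _ _ _ _ ((kr e L s).refl c) hab
      have hS' := sys_retract S (fun a => (circ hm w c)^[k + 1] a) (hk c) hp
      have hcard := Fintype.card_subtype_lt (p := fun a => (circ hm w c)^[k + 1] a = a) hz
      let E : A → {a : A // (circ hm w c)^[k + 1] a = a} := fun a =>
        ⟨(circ hm w c)^[k + 1] a, hk c a⟩
      have hu' : Uu (fun a : {a : A // (circ hm w c)^[k + 1] a = a} => e a.1) L (E x) (E y) :=
        uu_pres (f := E) hp hu
      have h1 := IH _ _ _ hS' hcard _ _ hu'
      have h2 : (circ hm w c)^[k + 1] x = (circ hm w c)^[k + 1] y := congrArg Subtype.val h1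
      have h3 := tc (θ := kr e L) (T := T) (δ := δ) hδ (f := fun z => (circ hm w z)^[k + 1] x)
        (g := fun z => (circ hm w z)^[k + 1] y)
        (fun s a b hab => it_pres hm S s (k + 1) _ _ _ _ hab ((kr e L s).refl x))
        (fun s a b hab => it_pres hm S s (k + 1) _ _ _ _ hab ((kr e L s).refl y))
        (fun z => hpres (fun t => (circ hm w z)^[k + 1] t)
          (fun s a b hab => it_pres hm S s (k + 1) _ _ _ _ ((kr e L s).refl z) hab) x y hxy)
        (Setoid.symm' _ (hall c)) h2
      have h3' : (circ hm w x)^[k + 1] x = (circ hm w x)^[k + 1] y := h3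
      rw [it_self hm S] at h3'
      exact hne (it_inj hm S hδ hpres hxy hl (k + 1) h3'.symm)
    obtain ⟨p, hp, hcg⟩ := malcev hm S k hid
    have h1 := inf_psi_bot S.inj hL hp hcg
    have h2 : ∀ K : Finset ι, (K.inf (psi (kr e L))) x y := by
      intro K
      induction K using Finset.induction_on with
      | empty => rw [inf_empty]; trivial
      | insert s K _ ih => rw [inf_insert]; exact ⟨hu s, ih⟩
    exact hne (h1 (h2 univ))
  · push Not at hall
    obtain ⟨z, hz⟩ := hall
    obtain ⟨w', hS'⟩ := sys_class S T x
    have hcard := Fintype.card_subtype_lt (p := fun a => (T.sup (kr e L)) x a) hz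
    exact hne (congrArg Subtype.val (IH _ _ _ hS' hcard _ _ hC))

/-- The kernels of the projections are independent. -/
theorem wnu_main (hL : ∀ i j, i ≠ j → ∀ v, L i v = 0 → L j v = 0 → v = 0) (hm : 2 ≤ m)
    [Nonempty ι] : ∀ (N : ℕ) (A : Type) [Fintype A] (e : A → V) (w : (Fin m → A) → A),
      Sys L A e w → Fintype.card A = N → ∀ x y, Uu e L x y → x = y := by
  intro N
  induction N using Nat.strong_induction_on with
  | _ N ih =>
    intro A _ e w S hN x y hu
    have IH : ∀ (A' : Type) [Fintype A'] (e' : A' → V) (w' : (Fin m → A') → A'), Sys L A' e' w' →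
        Fintype.card A' < Fintype.card A → ∀ x y, Uu e' L x y → x = y :=
      fun A' _ e' w' S' h => ih (Fintype.card A') (hN ▸ h) A' e' w' S' rfl
    have hd := dis S.inj hL
    have hkap : ∀ i x y, kap (kr e L) i x y → x = y := by
      intro i x y hxy
      refine core hL hm S IH (univ.erase i) (kap (kr e L) i) ?_ ?_ hxy hxy.2
        (fun k => kap_le_psi _ k i hxy) ?_
      · intro s hs a b hab hs'
        exact hd i s (mem_erase.1 hs).1.symm a b hab.1 hs'
      · intro f hf a b hab
        exact pres_kap hf hab
      · intro k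
        by_cases hk : k = i
        · rw [hk]
          exact lift_class (univ.erase i) (univ.erase i) subset_rfl x hxy.2
        · have h1 : kr (fun a : {a : A // ((univ.erase i).sup (kr e L)) x a} => e a.1) L i
              ⟨x, Setoid.refl' _ x⟩ ⟨y, hxy.2⟩ := hxy.1
          exact le_psi _ (Ne.symm hk) h1
    obtain ⟨i₀⟩ := ‹Nonempty ι›
    let δ : Setoid A :=
      { r := Uu e L
        iseqv := ⟨fun x k => (psi (kr e L) k).refl x, fun h k => (psi (kr e L) k).symm (h k),
          fun h h' k => (psi (kr e L) k).trans (h k) (h' k)⟩ }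
    have hl : (univ.sup (kr e L)) x y :=
      (Finset.sup_mono (f := kr e L) (erase_subset i₀ univ)) (hu i₀)
    refine core hL hm S IH univ δ ?_ ?_ hu hl hu ?_
    · intro s _ a b hab hs
      exact hkap s a b ⟨hs, hab s⟩
    · intro f hf a b hab
      exact uu_pres hf hab
    · intro k
      exact lift_class univ (univ.erase k) (erase_subset _ _) x (hu k)

end

end Pool.Agent.H336.Gumm
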