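import Pool.Agent.H336.Kak.Bound
import Pool.Agent.H336.Kak.Wnu

/-!
# The arithmetic Kakeya inequality for sets closed under weak near-unanimity operations
-/

set_option autoImplicit false

namespace Pool.Agent.H336.Kak

open Finset Pool.Agent.H336.Gumm

/-- There are some weak near-unanimity operations of the same arity `m ≥ 2`, one on each of the
projections with slope `∞` or in `S`, so that `A` is closed under their componentwise
application. -/
def WnuClosed (S : Finset ℚ) (A : Finset (ℤ × ℤ)) : Prop :=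
  ∃ (m : ℕ) (w : Option ℚ → (Fin m → ℚ) → ℚ), 2 ≤ m ∧
    (∀ r ∈ insertNone S, IsWnu (w r)) ∧
    ∀ a : Fin m → ℤ × ℤ, (∀ i, a i ∈ A) →
      ∃ d ∈ A, ∀ r ∈ insertNone S, pr r d = w r fun i => pr r (a i)

theorem lw_of_uu {A : Type} [Fintype A] [Nonempty A] {ι : Type} [Fintype ι] [Nonempty ι]
    {V : Type} [AddCommGroup V] {e : A → V} {L : ι → V →+ ℚ}
    (h : ∀ x y : A, Uu e L x y → x = y) :
    Fintype.card A ^ (Fintype.card ι - 1) ≤ ∏ i, #((univ : Finset A).image fun x => L i (e x)) := by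
  classical
  obtain ⟨m, hm⟩ : ∃ m, Fintype.card ι = m + 1 := ⟨Fintype.card ι - 1, by
    have := Fintype.card_pos (α := ι); omega⟩
  let ε : Fin (m + 1) ≃ ι := (Fintype.equivFinOfCardEq hm).symm
  let P : Fin (m + 1) → Type := fun k => Quotient (psi (kr e L) (ε k))
  let g : A → ∀ k, P k := fun x k => Quotient.mk (psi (kr e L) (ε k)) x
  have hg : Function.Injective g := by
    intro x y hxy
    refine h x y fun s => ?_
    have h2 : g x (ε.symm s) = g y (ε.symm s) := congrFun hxy _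
    have h3 := Quotient.exact h2
    rw [ε.apply_symm_apply] at h3
    exact h3
  have h1 := Pool.Agent.R181.LW.loomisWhitney m P (univ.image g) (univ_nonempty.image _)
  rw [card_image_of_injective _ hg, card_univ] at h1
  rw [hm, Nat.add_sub_cancel]
  refine h1.trans ?_
  rw [← ε.prod_comp]
  refine prod_le_prod' fun k _ => ?_
  rw [image_image]
  refine Pool.Agent.R181.LW.card_image_le_of_factor _ _ _ ?_
  intro x _ y _ hxy
  funext j
  refine Quotient.sound ?_
  refine le_psi (kr e L) (i := ε (k.succAbove j)) (s := ε k) ?_ hxy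
  exact fun h0 => Fin.succAbove_ne k j (ε.injective h0).symm

theorem bound_wnu (S : Finset ℚ) (hS : 1 ≤ #S) (A : Finset (ℤ × ℤ)) (hA : WnuClosed S A) :
    #A ^ #S ≤ ∏ r ∈ insertNone S, #(proj r A) := by
  classical
  rcases A.eq_empty_or_nonempty with rfl | hne
  · rw [card_empty, zero_pow (by omega)]
    exact Nat.zero_le _
  obtain ⟨m, w, hm, hW, hcl⟩ := hA
  let ι : Type := {r // r ∈ insertNone S}
  let e : {a // a ∈ A} → ℤ × ℤ := Subtype.val
  let L : ι → ℤ × ℤ →+ ℚ := fun i => prHom i.1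
  have he : Function.Injective e := Subtype.val_injective
  have hL : ∀ i j : ι, i ≠ j → ∀ v, L i v = 0 → L j v = 0 → v = 0 := fun i j hij v h1 h2 =>
    pr_sep (fun h0 => hij (Subtype.ext h0)) v h1 h2
  have h0 : (none : Option ℚ) ∈ insertNone S := none_mem_insertNone
  obtain ⟨s, hs⟩ := card_pos.1 hS
  have h1 : (some s : Option ℚ) ∈ insertNone S := some_mem_insertNone.2 hs
  have hinj : ∀ x y : {a // a ∈ A}, (∀ r ∈ insertNone S, pr r x.1 = pr r y.1) → x = y := by
    intro x y hxy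
    have hne : (⟨none, h0⟩ : ι) ≠ ⟨some s, h1⟩ := fun h => by simpa using congrArg Subtype.val h
    exact dis he hL _ _ hne x y (kr_iff.2 (hxy _ h0)) (kr_iff.2 (hxy _ h1))
  have hq : ∀ a : Fin m → {a // a ∈ A}, ∃ d : {a // a ∈ A},
      ∀ r ∈ insertNone S, pr r d.1 = w r fun i => pr r (a i).1 := by
    intro a
    obtain ⟨d, hd, hd'⟩ := hcl (fun i => (a i).1) fun i => (a i).2
    exact ⟨⟨d, hd⟩, hd'⟩
  choose w' hw' using hq
  have hS' : Sys L {a // a ∈ A} e w' := by
    refine ⟨he, ⟨fun x => ?_, fun i j x y => ?_⟩, ?_⟩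
    · refine hinj _ _ fun r hr => ?_
      rw [hw' _ r hr, (hW r hr).idem]
    · refine hinj _ _ fun r hr => ?_
      have h2 : ∀ i : Fin m, (fun l => pr r (Function.update (fun _ => x) i y l).1) =
          Function.update (fun _ => pr r x.1) i (pr r y.1) := by
        intro i
        funext l
        by_cases hl : l = i
        · rw [hl, Function.update_self, Function.update_self]
        · rw [Function.update_of_ne hl, Function.update_of_ne hl]
      rw [hw' _ r hr, hw' _ r hr, h2, h2, (hW r hr).wnu i j]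
    · intro i a b hab
      show pr i.1 (w' a).1 = pr i.1 (w' b).1
      rw [hw' _ i.1 i.2, hw' _ i.1 i.2]
      congr 1
      funext l
      exact hab l
  have hA' : Nonempty {a // a ∈ A} := hne.to_subtype
  have hι : Nonempty ι := ⟨⟨none, h0⟩⟩
  have h := lw_of_uu (fun x y => wnu_main hL hm _ _ e w' hS' rfl x y)
  have hcard : Fintype.card ι = #S + 1 := by
    rw [Fintype.card_coe, card_insertNone]
  rw [hcard, Nat.add_sub_cancel, Fintype.card_coe] at h
  refine h.trans (le_of_eq ?_)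
  rw [← prod_coe_sort (insertNone S) fun r => #(proj r A)]
  refine prod_congr rfl fun i _ => ?_
  rw [proj]
  congr 1
  ext z
  simp only [mem_image, mem_univ, true_and, Subtype.exists]
  constructor
  · rintro ⟨a, ha, rfl⟩; exact ⟨a, ha, rfl⟩
  · rintro ⟨a, ha, rfl⟩; exact ⟨a, ha, rfl⟩

theorem union_gen (ε : ℝ) (hε : 0 < ε) (S : Finset ℚ) (hSε : 2 / ε ≤ #S)
    (A : Finset (ℤ × ℤ)) (L : ℕ) (B : Fin L → Finset (ℤ × ℤ)) (hBA : ∀ i, B i ⊆ A)
    (hcov : ∀ a ∈ A, ∃ i, a ∈ B i)
    (hB : ∀ i, #(B i) ^ #S ≤ ∏ r ∈ insertNone S, #(proj r (B i)))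
    (hL : (L : ℝ) ≤ (#(proj (some (-1)) A) : ℝ) ^ (ε / (2 * (1 + ε)))) :
    (#(proj (some (-1)) A) : ℝ) ≤ (big S A : ℝ) ^ (1 + ε) := by
  classical
  set K : ℕ := #S with hK
  have hKpos : (0 : ℝ) < K := lt_of_lt_of_le (by positivity) hSε
  have hK1 : 1 ≤ K := Nat.one_le_iff_ne_zero.2 fun h => by simp [h] at hKpos
  have h1K : 1 / (K : ℝ) ≤ ε / 2 := by
    rw [div_le_iff₀ hε] at hSε
    rw [div_le_div_iff₀ hKpos (by norm_num)]
    linarith
  set δ : ℝ := ε / (2 * (1 + ε)) with hδ
  set M : ℝ := (big S A : ℝ) with hM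
  set N : ℝ := (#(proj (some (-1)) A) : ℝ) with hN
  rcases A.eq_empty_or_nonempty with rfl | hne
  · have : N = 0 := by rw [hN]; simp [proj]
    rw [this]
    positivity
  have hM1 : (1 : ℝ) ≤ M := by
    have : 1 ≤ #(proj none A) := card_pos.2 (hne.image _)
    rw [hM]
    exact_mod_cast this.trans (proj_le_big none_mem_insertNone)
  have hN1 : (1 : ℝ) ≤ N := by
    have : 1 ≤ #(proj (some (-1)) A) := card_pos.2 (hne.image _)
    rw [hN]
    exact Nat.one_le_cast.2 this
  have h2 : ∀ i, (#(B i) : ℝ) ≤ M ^ (1 + 1 / (K : ℝ)) := by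
    intro i
    have h3 : #(B i) ^ K ≤ big S (B i) ^ (K + 1) := by
      refine (hB i).trans ?_
      rw [hK, ← card_insertNone]
      exact prod_le_pow_card _ _ _ fun r hr => proj_le_big hr
    have h4 : #(B i) ^ K ≤ big S A ^ (K + 1) :=
      h3.trans (Nat.pow_le_pow_left (big_mono S (hBA i)) _)
    refine le_of_pow_le_pow_left₀ (n := K) (by omega) (by positivity) ?_
    have h5 : (M ^ (1 + 1 / (K : ℝ))) ^ K = M ^ (K + 1) := by
      rw [← Real.rpow_natCast, ← Real.rpow_mul (by positivity), ← Real.rpow_natCast]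
      congr 1
      push_cast
      field_simp
    rw [h5, hM, ← Nat.cast_pow, ← Nat.cast_pow]
    exact Nat.cast_le.2 h4
  have h6 : (#A : ℝ) ≤ L * M ^ (1 + 1 / (K : ℝ)) := by
    have h7 : #A ≤ ∑ i : Fin L, #(B i) := by
      have : A ⊆ univ.biUnion B := fun a ha => by
        obtain ⟨i, hi⟩ := hcov a ha
        exact mem_biUnion.2 ⟨i, mem_univ _, hi⟩
      exact (card_le_card this).trans card_biUnion_le
    calc (#A : ℝ) ≤ ((∑ i : Fin L, #(B i) : ℕ) : ℝ) := by exact_mod_cast h7
      _ = ∑ i : Fin L, (#(B i) : ℝ) := by push_cast; rfl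
      _ ≤ ∑ _i : Fin L, M ^ (1 + 1 / (K : ℝ)) := sum_le_sum fun i _ => h2 i
      _ = _ := by rw [sum_const, card_univ, Fintype.card_fin, nsmul_eq_mul]
  have h8 : N ≤ #A := by
    have : #(proj (some (-1)) A) ≤ #A := card_image_le
    rw [hN]
    exact Nat.cast_le.2 this
  have h9 : N ≤ N ^ δ * M ^ (1 + ε / 2) := by
    refine h8.trans (h6.trans (mul_le_mul hL ?_ (by positivity) (by positivity)))
    exact Real.rpow_le_rpow_of_exponent_le hM1 (by linarith)
  have hδ1 : δ < 1 := by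
    rw [hδ, div_lt_one (by positivity)]
    linarith
  have hN0 : 0 < N := by linarith
  have h10 : N ^ (1 - δ) ≤ M ^ (1 + ε / 2) := by
    have h11 : N ^ δ * N ^ (1 - δ) = N := by
      rw [← Real.rpow_add hN0]
      simp
    have h12 : N ^ δ * N ^ (1 - δ) ≤ N ^ δ * M ^ (1 + ε / 2) := by rw [h11]; exact h9
    exact le_of_mul_le_mul_left h12 (Real.rpow_pos_of_pos hN0 _)
  have h13 : 1 - δ = (1 + ε / 2) / (1 + ε) := by
    rw [hδ]
    field_simp
    ring
  have h14 : (N ^ (1 - δ)) ^ (1 / (1 - δ)) ≤ (M ^ (1 + ε / 2)) ^ (1 / (1 - δ)) :=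
    Real.rpow_le_rpow (by positivity) h10 (by
      have : 0 < 1 - δ := by linarith
      positivity)
  rw [← Real.rpow_mul hN0.le, ← Real.rpow_mul (by linarith), mul_one_div_cancel (by linarith),
    Real.rpow_one] at h14
  refine h14.trans (le_of_eq ?_)
  congr 1
  rw [h13]
  field_simp

end Pool.Agent.H336.Kak
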